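import Mathlib

namespace Pool.Agent.Results.MP_eb9ef7_pr.Yes

open MeasureTheory Filter Topology Metric Set BoundedContinuousFunction
open scoped ENNReal

universe u v

/-- A random closed set: closed values, Effros measurable. -/
def IsRandomClosedSet {Ω : Type v} [MeasurableSpace Ω] {E : Type u} [TopologicalSpace E]
    (X : Ω → Set E) : Prop :=
  (∀ ω, IsClosed (X ω)) ∧ ∀ G : Set E, IsOpen G → MeasurableSet {ω | (X ω ∩ G).Nonempty}

/-- A selection: a random element lying in `X` almost surely. -/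
def IsSelection {Ω : Type v} [MeasurableSpace Ω] (P : Measure Ω) {E : Type u} [MeasurableSpace E]
    (X : Ω → Set E) (ξ : Ω → E) : Prop :=
  Measurable ξ ∧ ∀ᵐ ω ∂P, ξ ω ∈ X ω

open Classical in
noncomputable def step (r : ℝ≥0∞) (c : ℕ → Prop) (d : ℕ) (z : ℕ → ℝ≥0∞) : ℕ :=
  if h : ∃ j, z j < r ∧ c j then Nat.find h else d

lemma step_eq (r : ℝ≥0∞) (c : ℕ → Prop) (d : ℕ) (z : ℕ → ℝ≥0∞) (j : ℕ) :
    step r c d z = j ↔ ((z j < r ∧ c j) ∧ ∀ i < j, ¬ (z i < r ∧ c i)) ∨
      ((∀ i, ¬ (z i < r ∧ c i)) ∧ d = j) := by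
  classical
  unfold step
  split_ifs with h
  · rw [Nat.find_eq_iff]
    obtain ⟨i, hi⟩ := h
    exact ⟨Or.inl, fun h => h.resolve_right (fun h => h.1 i hi)⟩
  · push Not at h
    refine ⟨fun e => Or.inr ⟨fun i hi => h i hi.1 hi.2, e⟩, fun e => ?_⟩
    exact (e.resolve_left (fun e => h j e.1.1 e.1.2)).2

lemma step_meas (r : ℝ≥0∞) (c : ℕ → Prop) (d : ℕ) : Measurable (step r c d) := by
  refine measurable_to_countable' (fun j => ?_)
  have : step r c d ⁻¹' {j} = {z | ((z j < r ∧ c j) ∧ ∀ i < j, ¬ (z i < r ∧ c i)) ∨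
      ((∀ i, ¬ (z i < r ∧ c i)) ∧ d = j)} := by
    ext z; exact step_eq r c d z j
  rw [this]
  have h : ∀ i, Measurable fun z : ℕ → ℝ≥0∞ => z i < r ∧ c i := fun i =>
    (measurableSet_setOf.1 (measurableSet_lt (measurable_pi_apply i) measurable_const)).and
      measurable_const
  exact measurableSet_setOf.2 (((h j).and (Measurable.forall fun i =>
    measurable_const.imp (h i).not)).or ((Measurable.forall fun i => (h i).not).and measurable_const))

lemma step_spec {r : ℝ≥0∞} {c : ℕ → Prop} (d : ℕ) {z : ℕ → ℝ≥0∞} (h : ∃ j, z j < r ∧ c j) :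
    (z (step r c d z) < r ∧ c (step r c d z)) ∧ ∀ i < step r c d z, ¬ (z i < r ∧ c i) := by
  obtain ⟨i, hi⟩ := h
  exact ((step_eq r c d z _).1 rfl).resolve_right (fun h => h.1 i hi)

lemma step_loc {r : ℝ≥0∞} {c : ℕ → Prop} (d : ℕ) {z : ℕ → ℝ≥0∞} (h : ∃ j, z j < r ∧ c j)
    (hz : ∀ j, z j ≠ r) : ∀ᶠ z' in 𝓝 z, step r c d z' = step r c d z := by
  obtain ⟨⟨h1, h2⟩, h3⟩ := step_spec d h
  set j := step r c d z
  have a1 : ∀ᶠ z' in 𝓝 z, z' j < r := (continuous_apply j).continuousAt.eventually_lt_const h1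
  have a2 : ∀ᶠ z' in 𝓝 z, ∀ i ∈ Finset.range j, ¬ (z' i < r ∧ c i) := by
    rw [Filter.eventually_all_finset]
    intro i hi
    by_cases hc : c i
    · have : r < z i := lt_of_le_of_ne (not_lt.1 fun h => h3 i (by simpa using hi) ⟨h, hc⟩)
        (hz i).symm
      filter_upwards [(continuous_apply i).continuousAt.eventually_const_lt this] with z' h' h''
      exact absurd h''.1 h'.not_gt
    · exact Eventually.of_forall fun z' h => hc h.2
  filter_upwards [a1, a2] with z' b1 b2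
  exact (step_eq _ _ _ _ _).2 (Or.inl ⟨⟨b1, h2⟩, fun i hi => b2 i (by simpa using hi)⟩)

variable {E : Type u} [MetricSpace E]

noncomputable def idx (x : ℕ → E) (r : ℕ → ℝ) : ℕ → (ℕ → ℝ≥0∞) → ℕ
  | 0, z => step (ENNReal.ofReal (r 0)) (fun _ => True) 0 z
  | k + 1, z => step (ENNReal.ofReal (r (k + 1)))
      (fun j => dist (x (idx x r k z)) (x j) ≤ 2 * (1 / 2) ^ k) (idx x r k z) z

lemma idx_meas (x : ℕ → E) (r : ℕ → ℝ) (k : ℕ) : Measurable (idx x r k) := by
  induction k with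
  | zero => exact step_meas _ _ _
  | succ k ih =>
    have : Measurable fun p : (ℕ → ℝ≥0∞) × ℕ => step (ENNReal.ofReal (r (k + 1)))
        (fun j => dist (x p.2) (x j) ≤ 2 * (1 / 2) ^ k) p.2 p.1 :=
      measurable_from_prod_countable_left (fun i => step_meas (ENNReal.ofReal (r (k + 1)))
        (fun j => dist (x i) (x j) ≤ 2 * (1 / 2) ^ k) i)
    exact this.comp (measurable_id.prodMk ih)

lemma idx_dist (x : ℕ → E) (r : ℕ → ℝ) (k : ℕ) (z : ℕ → ℝ≥0∞) :
    dist (x (idx x r k z)) (x (idx x r (k + 1) z)) ≤ 2 * (1 / 2) ^ k := by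
  rcases (step_eq _ _ _ z (idx x r (k + 1) z)).1 rfl with h | h
  · exact h.1.2
  · rw [← h.2, dist_self]; positivity

noncomputable def sel (x : ℕ → E) (r : ℕ → ℝ) (z : ℕ → ℝ≥0∞) : E :=
  haveI : Nonempty E := ⟨x 0⟩
  limUnder atTop (fun k => x (idx x r k z))

lemma sel_lim [CompleteSpace E] (x : ℕ → E) (r : ℕ → ℝ) (z : ℕ → ℝ≥0∞) :
    Tendsto (fun k => x (idx x r k z)) atTop (𝓝 (sel x r z)) :=
  haveI : Nonempty E := ⟨x 0⟩
  (cauchySeq_of_le_geometric (1 / 2) 2 (by norm_num) (fun k => idx_dist x r k z)).tendsto_limUnder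

lemma sel_dist [CompleteSpace E] (x : ℕ → E) (r : ℕ → ℝ) (z : ℕ → ℝ≥0∞) (k : ℕ) :
    dist (x (idx x r k z)) (sel x r z) ≤ 4 * (1 / 2) ^ k := by
  have := dist_le_of_le_geometric_of_tendsto (1 / 2) 2 (by norm_num) (fun k => idx_dist x r k z)
    (sel_lim x r z) k
  refine this.trans (le_of_eq (by ring))

noncomputable def Φ (x : ℕ → E) (F : Set E) : ℕ → ℝ≥0∞ := fun j => infEDist (x j) F

lemma near {x : ℕ → E} (hx : DenseRange x) {F : Set E} {y : E} (hy : y ∈ F) {ε : ℝ}
    (hε : 0 < ε) : ∃ j, Φ x F j < ENNReal.ofReal ε ∧ dist y (x j) < ε := by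
  obtain ⟨j, hj⟩ := hx.exists_dist_lt y hε
  exact ⟨j, infEDist_lt_iff.2 ⟨y, hy, edist_lt_ofReal.2 (by rwa [dist_comm])⟩, hj⟩

lemma good {x : ℕ → E} (hx : DenseRange x) {r : ℕ → ℝ} (hr : ∀ k, r k ∈ Ioo (0 : ℝ) ((1 / 2) ^ k))
    {F : Set E} (hF : F.Nonempty) (k : ℕ) :
    Φ x F (idx x r k (Φ x F)) < ENNReal.ofReal (r k) ∧
      ((∀ j k, Φ x F j ≠ ENNReal.ofReal (r k)) →
        ∀ᶠ z' in 𝓝 (Φ x F), idx x r k z' = idx x r k (Φ x F)) := by
  induction k with
  | zero =>
    obtain ⟨y, hy⟩ := hF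
    obtain ⟨j, hj, -⟩ := near hx hy (hr 0).1
    have e : ∃ j, Φ x F j < ENNReal.ofReal (r 0) ∧ True := ⟨j, hj, trivial⟩
    exact ⟨(step_spec 0 e).1.1, fun h => step_loc 0 e (fun j => h j 0)⟩
  | succ k ih =>
    obtain ⟨y, hy, hd⟩ := infEDist_lt_iff.1 ih.1
    rw [edist_lt_ofReal] at hd
    obtain ⟨j, hj, hj'⟩ := near hx hy (hr (k + 1)).1
    have e : ∃ j, Φ x F j < ENNReal.ofReal (r (k + 1)) ∧
        dist (x (idx x r k (Φ x F))) (x j) ≤ 2 * (1 / 2) ^ k := by
      refine ⟨j, hj, ?_⟩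
      have a1 := dist_triangle (x (idx x r k (Φ x F))) y (x j)
      have a2 := (hr k).2
      have a3 := (hr (k + 1)).2
      have a4 : (0 : ℝ) < (1 / 2) ^ k := by positivity
      rw [pow_succ] at a3
      linarith
    refine ⟨(step_spec _ e).1.1, fun h => ?_⟩
    filter_upwards [ih.2 h, step_loc (idx x r k (Φ x F)) e (fun j => h j _)] with z' b1 b2
    simp only [idx, b1]; exact b2

lemma sel_mem [CompleteSpace E] {x : ℕ → E} (hx : DenseRange x) {r : ℕ → ℝ}
    (hr : ∀ k, r k ∈ Ioo (0 : ℝ) ((1 / 2) ^ k)) {F : Set E} (hF : F.Nonempty) (hc : IsClosed F) :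
    sel x r (Φ x F) ∈ F := by
  rw [mem_iff_infEDist_zero_of_closed hc]
  have h1 : Tendsto (fun k => infEDist (x (idx x r k (Φ x F))) F) atTop
      (𝓝 (infEDist (sel x r (Φ x F)) F)) :=
    (continuous_infEDist.tendsto _).comp (sel_lim x r _)
  have h2 : Tendsto (fun k : ℕ => ENNReal.ofReal ((1 / 2) ^ k)) atTop (𝓝 0) := by
    have := ENNReal.tendsto_ofReal
      (tendsto_pow_atTop_nhds_zero_of_lt_one (r := (1 / 2 : ℝ)) (by norm_num) (by norm_num))
    simpa using this
  exact le_antisymm (le_of_tendsto_of_tendsto' h1 h2 (fun k =>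
    (good hx hr hF k).1.le.trans (ENNReal.ofReal_le_ofReal (hr k).2.le))) (by simp)

lemma sel_cont [CompleteSpace E] {x : ℕ → E} (hx : DenseRange x) {r : ℕ → ℝ}
    (hr : ∀ k, r k ∈ Ioo (0 : ℝ) ((1 / 2) ^ k)) {F : Set E} (hF : F.Nonempty)
    (h : ∀ j k, Φ x F j ≠ ENNReal.ofReal (r k)) : ContinuousAt (sel x r) (Φ x F) := by
  rw [ContinuousAt, Metric.tendsto_nhds]
  intro ε hε
  obtain ⟨k, hk⟩ := exists_pow_lt_of_lt_one (show 0 < ε / 8 by positivity)
    (show (1 / 2 : ℝ) < 1 by norm_num)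
  filter_upwards [(good hx hr hF k).2 h] with z hz
  have a1 := sel_dist x r z k
  have a2 := sel_dist x r (Φ x F) k
  rw [hz] at a1
  have := dist_triangle_left (sel x r z) (sel x r (Φ x F)) (x (idx x r k (Φ x F)))
  linarith

lemma Φ_meas {Ω : Type v} [MeasurableSpace Ω] {X : Ω → Set E} (h : IsRandomClosedSet X) (y : E) :
    Measurable fun ω => infEDist y (X ω) := by
  refine measurable_of_Iio (fun t => ?_)
  have := h.2 {w | edist y w < t} (isOpen_lt (by fun_prop) continuous_const)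
  convert this using 1
  ext ω
  simp only [mem_preimage, mem_Iio, infEDist_lt_iff, mem_setOf_eq]
  rfl

theorem result (E : Type u) [NormedAddCommGroup E] [NormedSpace ℝ E] [CompleteSpace E]
    [TopologicalSpace.SeparableSpace E] [MeasurableSpace E] [BorelSpace E]
    (Ωs : ℕ → Type v) [∀ n, MeasurableSpace (Ωs n)] (Ps : ∀ n, Measure (Ωs n))
    [∀ n, IsProbabilityMeasure (Ps n)]
    (Ω : Type v) [MeasurableSpace Ω] (P : Measure Ω) [IsProbabilityMeasure P]
    (Xs : ∀ n, Ωs n → Set E) (X : Ω → Set E)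
    (hXs : ∀ n, IsRandomClosedSet (Xs n)) (hX : IsRandomClosedSet X)
    (nes : ∀ n, ∀ᵐ ω ∂(Ps n), (Xs n ω).Nonempty) (ne : ∀ᵐ ω ∂P, (X ω).Nonempty)
    (conv : ∀ k, 1 ≤ k → ∀ (x : Fin k → E) (g : (Fin k → ℝ≥0∞) →ᵇ ℝ),
      Tendsto (fun n => ∫ ω, g (fun i => infEDist (x i) (Xs n ω)) ∂(Ps n)) atTop
        (𝓝 (∫ ω, g (fun i => infEDist (x i) (X ω)) ∂P))) :
    ∃ (ξs : ∀ n, Ωs n → E) (ξ : Ω → E), (∀ n, IsSelection (Ps n) (Xs n) (ξs n)) ∧
      IsSelection P X ξ ∧
      ∀ g : E →ᵇ ℝ, Tendsto (fun n => ∫ ω, g (ξs n ω) ∂(Ps n)) atTop (𝓝 (∫ ω, g (ξ ω) ∂P)) := by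
  obtain ⟨x, hx⟩ := TopologicalSpace.exists_dense_seq E
  have hc : (⋃ j, {t : ℝ | 0 < P {ω | (infEDist (x j) (X ω)).toReal = t}}).Countable :=
    countable_iUnion fun j => Measure.countable_meas_level_set_pos (Φ_meas hX _).ennreal_toReal
  have : ∀ k : ℕ, ∃ t ∈ Ioo (0 : ℝ) ((1 / 2) ^ k),
      t ∉ ⋃ j, {t : ℝ | 0 < P {ω | (infEDist (x j) (X ω)).toReal = t}} := by
    intro k
    by_contra h
    push Not at h
    have := hc.mono (show Ioo (0 : ℝ) ((1 / 2) ^ k) ⊆ _ from h)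
    have h2 := this.measure_zero volume
    simp at h2
  choose r hr hr' using this
  have sm : Measurable (sel x r) := measurable_of_tendsto_metrizable
    (fun k => (measurable_from_top (f := x)).comp (idx_meas x r k)) (tendsto_pi_nhds.2 (sel_lim x r))
  have m1 : ∀ n, Measurable fun ω => Φ x (Xs n ω) := fun n =>
    measurable_pi_lambda _ fun j => Φ_meas (hXs n) _
  have m2 : Measurable fun ω => Φ x (X ω) := measurable_pi_lambda _ fun j => Φ_meas hX _
  refine ⟨fun n ω => sel x r (Φ x (Xs n ω)), fun ω => sel x r (Φ x (X ω)), fun n =>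
    ⟨sm.comp (m1 n), (nes n).mono fun ω h => sel_mem hx hr h ((hXs n).1 ω)⟩,
    ⟨sm.comp m2, ne.mono fun ω h => sel_mem hx hr h (hX.1 ω)⟩, fun g => ?_⟩
  have mk : ∀ {A : Type v} [MeasurableSpace A] (Q : Measure A) [IsProbabilityMeasure Q]
      {B : Type u} [MeasurableSpace B] {f : A → B}, Measurable f →
      IsProbabilityMeasure (Q.map f) := fun Q _ _ _ _ hf =>
    Measure.isProbabilityMeasure_map hf.aemeasurable
  let νs : ℕ → ProbabilityMeasure E := fun n => ⟨_, mk (Ps n) (sm.comp (m1 n))⟩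
  let ν : ProbabilityMeasure E := ⟨_, mk P (sm.comp m2)⟩
  have key : Tendsto νs atTop (𝓝 ν) := by
    refine tendsto_of_forall_isOpen_le_liminf_nat' (fun U hU => ?_)
    simp only [νs, ν, ProbabilityMeasure.coe_mk]
    simp only [Measure.map_apply (sm.comp (m1 _)) hU.measurableSet,
      Measure.map_apply (sm.comp m2) hU.measurableSet]
    set W := interior (sel x r ⁻¹' U)
    let π : ∀ m, (ℕ → ℝ≥0∞) → (Fin (m + 1) → ℝ≥0∞) := fun m z i => z i
    have πc : ∀ m, Continuous (π m) := fun m => continuous_pi fun i => continuous_apply _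
    let V : ∀ m, Set (Fin (m + 1) → ℝ≥0∞) := fun m => (π m '' Wᶜ)ᶜ
    have Vo : ∀ m, IsOpen (V m) := fun m =>
      ((isOpen_interior.isClosed_compl.isCompact.image (πc m)).isClosed).isOpen_compl
    have s1 : P (((sel x r) ∘ fun ω => Φ x (X ω)) ⁻¹' U) ≤
        P (⋃ m, {ω | π m (Φ x (X ω)) ∈ V m}) := by
      have a : ∀ᵐ ω ∂P, ∀ j k, Φ x (X ω) j ≠ ENNReal.ofReal (r k) := by
        simp only [ae_all_iff]
        intro j k
        have := hr' k
        simp only [mem_iUnion, mem_setOf_eq, not_exists, not_lt, nonpos_iff_eq_zero] at this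
        refine measure_mono_null (fun ω hω => ?_) (this j)
        simp only [ne_eq, mem_compl_iff, mem_setOf_eq, not_not] at hω ⊢
        rw [show infEDist (x j) (X ω) = _ from hω, ENNReal.toReal_ofReal (hr k).1.le]
      refine measure_mono_ae ?_
      filter_upwards [a, ne] with ω h1 h2 h3
      have hW : Φ x (X ω) ∈ W := mem_interior_iff_mem_nhds.2 (sel_cont hx hr h2 h1 (hU.mem_nhds h3))
      obtain ⟨I, t, ht, hI⟩ := isOpen_pi_iff.1 isOpen_interior _ hW
      refine mem_iUnion.2 ⟨I.sup id, ?_⟩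
      rintro ⟨z, hz, e⟩
      refine hz (hI fun i hi => ?_)
      have := congrFun e ⟨i, Nat.lt_succ_of_le (Finset.le_sup (f := id) hi)⟩
      simp only [π] at this
      rw [this]; exact (ht i hi).2
    refine s1.trans ?_
    rw [Monotone.measure_iUnion]
    · refine iSup_le fun m => ?_
      have n1 : ∀ n, Measurable fun ω => π m (Φ x (Xs n ω)) := fun n =>
        (πc m).measurable.comp (m1 n)
      have n2 : Measurable fun ω => π m (Φ x (X ω)) := (πc m).measurable.comp m2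
      let μs : ℕ → ProbabilityMeasure (Fin (m + 1) → ℝ≥0∞) := fun n =>
        ⟨_, Measure.isProbabilityMeasure_map (μ := Ps n) (n1 n).aemeasurable⟩
      let μ : ProbabilityMeasure (Fin (m + 1) → ℝ≥0∞) :=
        ⟨_, Measure.isProbabilityMeasure_map (μ := P) n2.aemeasurable⟩
      have t : Tendsto μs atTop (𝓝 μ) := by
        refine ProbabilityMeasure.tendsto_iff_forall_integral_tendsto.2 (fun f => ?_)
        simp only [μs, μ, ProbabilityMeasure.coe_mk]
        simp only [integral_map (n1 _).aemeasurable f.continuous.aestronglyMeasurable,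
          integral_map n2.aemeasurable f.continuous.aestronglyMeasurable]
        exact conv (m + 1) (by omega) (fun i => x i) f
      have := ProbabilityMeasure.le_liminf_measure_open_of_tendsto t (Vo m)
      simp only [μs, μ, ProbabilityMeasure.coe_mk] at this
      simp only [Measure.map_apply (n1 _) (Vo m).measurableSet,
        Measure.map_apply n2 (Vo m).measurableSet] at this
      refine this.trans (liminf_le_liminf (Eventually.of_forall fun n => measure_mono ?_))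
      intro ω hω
      have : Φ x (Xs n ω) ∈ W := by
        by_contra hc
        exact hω ⟨_, hc, rfl⟩
      exact interior_subset (s := sel x r ⁻¹' U) this
    · intro m m' hm ω hω
      rintro ⟨z, hz, e⟩
      refine hω ⟨z, hz, funext fun i => ?_⟩
      exact congrFun e ⟨i, by omega⟩
  have := ProbabilityMeasure.tendsto_iff_forall_integral_tendsto.1 key g
  simp only [νs, ν, ProbabilityMeasure.coe_mk] at this
  simp only [integral_map (sm.comp (m1 _)).aemeasurable g.continuous.aestronglyMeasurable,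
    integral_map (sm.comp m2).aemeasurable g.continuous.aestronglyMeasurable] at this
  exact this

end Pool.Agent.Results.MP_eb9ef7_pr.Yes
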